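import Pool.Agent.K1H14.SD.Stm

set_option autoImplicit false

/-!
# Piece FIN of the project SD: linear algebra of real forms
-/

namespace Pool.Agent.K1H21.SD

open Pool.Agent.K1H14.SD

universe u

section

variable {V : Type u} [AddCommGroup V] [Module ℂ V]

omit [AddCommGroup V] [Module ℂ V] in
lemma upd0 (x v w : V) : Function.update ![x, v] 0 w = ![w, v] := by
  ext i; fin_cases i <;> simp

omit [AddCommGroup V] [Module ℂ V] in
lemma upd1 (x v w : V) : Function.update ![x, v] 1 w = ![x, w] := by
  ext i; fin_cases i <;> simp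

/-- the bilinear form of a multilinear map of two arguments -/
noncomputable def L (ψ : MultilinearMap ℂ (fun _ : Fin 2 => V) ℂ) : V →ₗ[ℂ] V →ₗ[ℂ] ℂ :=
  LinearMap.mk₂ ℂ (fun u v => ψ ![u, v])
    (by
      intro x y v
      have h := ψ.map_update_add ![0, v] 0 x y
      rwa [upd0, upd0, upd0] at h)
    (by
      intro c x v
      have h := ψ.map_update_smul ![0, v] 0 c x
      rwa [upd0, upd0] at h)
    (by
      intro x v w
      have h := ψ.map_update_add ![x, 0] 1 v w
      rwa [upd1, upd1, upd1] at h)
    (by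
      intro c x v
      have h := ψ.map_update_smul ![x, 0] 1 c v
      rwa [upd1, upd1] at h)

lemma L_apply (ψ : MultilinearMap ℂ (fun _ : Fin 2 => V) ℂ) (u v : V) : L ψ u v = ψ ![u, v] := rfl

lemma exists_onb [FiniteDimensional ℂ V] (h : V → V → ℂ) (hadd : ∀ x y z, h z (x + y) = h z x + h z y)
    (hsmul : ∀ (c : ℂ) x z, h z (c • x) = (starRingEnd ℂ) c * h z x)
    (hconj : ∀ x y, (starRingEnd ℂ) (h x y) = h y x)
    (hpos : ∀ v, v ≠ 0 → Pos (h v v)) :
    ∃ (k : ℕ) (w : Module.Basis (Fin k) ℂ V), ∀ i j, h (w i) (w j) = if i = j then 1 else 0 := by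
  let core : InnerProductSpace.Core ℂ V :=
    { inner := fun x y => h y x
      conj_inner_symm := fun x y => hconj x y
      re_inner_nonneg := fun x => by
        change 0 ≤ (h x x).re
        rcases eq_or_ne x 0 with rfl | hx
        · have h1 := hsmul 0 (0 : V) (0 : V)
          rw [zero_smul, map_zero, zero_mul] at h1
          rw [h1, Complex.zero_re]
        · obtain ⟨r, hr, h2⟩ := hpos x hx
          rw [h2, Complex.ofReal_re]; exact hr.le
      add_left := fun x y z => hadd x y z
      smul_left := fun x y r => hsmul r x y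
      definite := fun x hx => by
        by_contra hne
        obtain ⟨r, hr, h2⟩ := hpos x hne
        have h3 : h x x = 0 := hx
        rw [h3] at h2
        have : r = 0 := by exact_mod_cast h2.symm
        exact hr.ne' this }
  let _ : NormedAddCommGroup V := core.toNormedAddCommGroup
  let _ : InnerProductSpace ℂ V := InnerProductSpace.ofCore core.toCore
  let B := stdOrthonormalBasis ℂ V
  refine ⟨_, B.toBasis, fun i j => ?_⟩
  have h1 := orthonormal_iff_ite.1 B.orthonormal j i
  have h2 : h (B.toBasis i) (B.toBasis j) = inner ℂ (B j) (B i) := by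
    rw [OrthonormalBasis.coe_toBasis]; rfl
  rw [h2, h1]
  simp only [eq_comm]

/-- the contraction does not depend on the dual bases -/
lemma contraction (ψ : V →ₗ[ℂ] V →ₗ[ℂ] ℂ) (m k n : ℕ) (b b' : Fin m → V) (w w' : Fin k → V)
    (h1 : ∀ v, v = ∑ a, ψ v (w' a) • w a) (h2 : ∀ v, v = ∑ i, ψ v (b' i) • b i)
    (h3 : ∀ v, v = ∑ a, ψ (w a) v • w' a) (hw : ∀ a c, ψ (w a) (w' c) = if a = c then 1 else 0)
    (f : MultilinearMap ℂ (fun _ : Fin n => V) ℂ) :
    ∑ a : Fin n → Fin m, f (fun i => b (a i)) * f (fun i => b' (a i)) =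
      ∑ c : Fin n → Fin k, f (fun i => w (c i)) * f (fun i => w' (c i)) := by
  have e1 : ∀ a : Fin n → Fin m, f (fun i => b (a i)) =
      ∑ c : Fin n → Fin k, (∏ i, ψ (b (a i)) (w' (c i))) * f (fun i => w (c i)) := by
    intro a
    have : (fun i => b (a i)) = fun i => ∑ j : Fin k, ψ (b (a i)) (w' j) • w j := by
      funext i; exact h1 _
    rw [this, MultilinearMap.map_sum f (fun i j => ψ (b (a i)) (w' j) • w j)]
    refine Finset.sum_congr rfl (fun c _ => ?_)
    rw [MultilinearMap.map_smul_univ, smul_eq_mul]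
  have e2 : ∀ a : Fin n → Fin m, f (fun i => b' (a i)) =
      ∑ c : Fin n → Fin k, (∏ i, ψ (w (c i)) (b' (a i))) * f (fun i => w' (c i)) := by
    intro a
    have : (fun i => b' (a i)) = fun i => ∑ j : Fin k, ψ (w j) (b' (a i)) • w' j := by
      funext i; exact h3 _
    rw [this, MultilinearMap.map_sum f (fun i j => ψ (w j) (b' (a i)) • w' j)]
    refine Finset.sum_congr rfl (fun c _ => ?_)
    rw [MultilinearMap.map_smul_univ, smul_eq_mul]
  have e3 : ∀ c e : Fin n → Fin k, ∑ a : Fin n → Fin m,
      (∏ i, ψ (b (a i)) (w' (c i))) * (∏ i, ψ (w (e i)) (b' (a i))) = if e = c then 1 else 0 := by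
    intro c e
    have s1 : ∀ i : Fin n, ∑ j : Fin m, ψ (b j) (w' (c i)) * ψ (w (e i)) (b' j) =
        if e i = c i then 1 else 0 := by
      intro i
      rw [← hw, ]
      conv_rhs => rw [h2 (w (e i))]
      rw [map_sum, LinearMap.sum_apply]
      refine Finset.sum_congr rfl (fun j _ => ?_)
      rw [map_smul, LinearMap.smul_apply, smul_eq_mul, mul_comm]
    calc ∑ a : Fin n → Fin m, (∏ i, ψ (b (a i)) (w' (c i))) * (∏ i, ψ (w (e i)) (b' (a i)))
        = ∑ a : Fin n → Fin m, ∏ i, (ψ (b (a i)) (w' (c i)) * ψ (w (e i)) (b' (a i))) := by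
          refine Finset.sum_congr rfl (fun a _ => ?_)
          rw [Finset.prod_mul_distrib]
      _ = ∏ i, ∑ j : Fin m, ψ (b j) (w' (c i)) * ψ (w (e i)) (b' j) := by
          rw [Finset.prod_univ_sum, Fintype.piFinset_univ]
      _ = ∏ i, (if e i = c i then (1 : ℂ) else 0) := Finset.prod_congr rfl (fun i _ => s1 i)
      _ = if e = c then 1 else 0 := by
          by_cases h : e = c
          · rw [if_pos h, h]; simp
          · rw [if_neg h]
            obtain ⟨i, hi⟩ := Function.ne_iff.1 h
            exact Finset.prod_eq_zero (Finset.mem_univ i) (if_neg hi)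
  calc ∑ a : Fin n → Fin m, f (fun i => b (a i)) * f (fun i => b' (a i))
      = ∑ a : Fin n → Fin m, ∑ c : Fin n → Fin k, ∑ e : Fin n → Fin k,
          ((∏ i, ψ (b (a i)) (w' (c i))) * (∏ i, ψ (w (e i)) (b' (a i)))) *
            (f (fun i => w (c i)) * f (fun i => w' (e i))) := by
        refine Finset.sum_congr rfl (fun a _ => ?_)
        rw [e1, e2, Finset.sum_mul_sum]
        refine Finset.sum_congr rfl (fun c _ => Finset.sum_congr rfl (fun e _ => ?_))
        ring
    _ = ∑ c : Fin n → Fin k, ∑ e : Fin n → Fin k,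
          (∑ a : Fin n → Fin m, (∏ i, ψ (b (a i)) (w' (c i))) * (∏ i, ψ (w (e i)) (b' (a i)))) *
            (f (fun i => w (c i)) * f (fun i => w' (e i))) := by
        rw [Finset.sum_comm]
        refine Finset.sum_congr rfl (fun c _ => ?_)
        rw [Finset.sum_comm]
        refine Finset.sum_congr rfl (fun e _ => ?_)
        rw [Finset.sum_mul]
    _ = ∑ c : Fin n → Fin k, f (fun i => w (c i)) * f (fun i => w' (c i)) := by
        refine Finset.sum_congr rfl (fun c _ => ?_)
        rw [Finset.sum_eq_single c]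
        · rw [e3, if_pos rfl, one_mul]
        · intro e _ he
          rw [e3, if_neg he, zero_mul]
        · intro h; exact absurd (Finset.mem_univ c) h

end

theorem t_FIN : Pool.Agent.K1H14.SD.S_FIN.{u} := by
  intro V _ _ _ J ψ m b b' θ n f hJadd hJsmul hJbij hb hbb hpos hf hf0
  have hJ0 : J 0 = 0 := by
    have := hJsmul 0 0
    rwa [zero_smul, map_zero, zero_smul] at this
  set P := L ψ with hP
  have hPa : ∀ u v, P u v = ψ ![u, v] := fun u v => rfl
  -- the hermitian form
  set h : V → V → ℂ := fun v w => θ * P v (J w) with hh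
  have hadd : ∀ x y z, h z (x + y) = h z x + h z y := by
    intro x y z
    simp only [hh, hJadd, map_add, mul_add]
  have hsmul : ∀ (c : ℂ) x z, h z (c • x) = (starRingEnd ℂ) c * h z x := by
    intro c x z
    simp only [hh, hJsmul, map_smul, smul_eq_mul]
    ring
  have hadd' : ∀ x y z, h (x + y) z = h x z + h y z := by
    intro x y z
    simp only [hh, map_add, LinearMap.add_apply, mul_add]
  have hsmul' : ∀ (c : ℂ) x z, h (c • x) z = c * h x z := by
    intro c x z
    simp only [hh, map_smul, LinearMap.smul_apply, smul_eq_mul]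
    ring
  have hposh : ∀ v, v ≠ 0 → Pos (h v v) := fun v hv => hpos v hv
  have hreal : ∀ v, (h v v).im = 0 := by
    intro v
    rcases eq_or_ne v 0 with rfl | hv
    · have h1 := hsmul' 0 (0 : V) (0 : V)
      rw [zero_smul, zero_mul] at h1
      rw [h1, Complex.zero_im]
    · obtain ⟨r, _, h2⟩ := hposh v hv
      rw [h2, Complex.ofReal_im]
  have hconj : ∀ x y, (starRingEnd ℂ) (h x y) = h y x := by
    intro x y
    have h1 := hreal (x + y)
    rw [hadd, hadd', hadd'] at h1
    have h2 := hreal (x + Complex.I • y)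
    rw [hadd, hadd', hadd', hsmul, hsmul', hsmul', hsmul, Complex.conj_I] at h2
    have hx := hreal x
    have hy := hreal y
    apply Complex.ext
    · simp only [Complex.add_im, Complex.mul_im, Complex.I_re, Complex.I_im, Complex.neg_re,
        Complex.neg_im, Complex.mul_re, hx, hy] at h2
      rw [Complex.conj_re]
      linarith
    · simp only [Complex.add_im, hx, hy] at h1
      rw [Complex.conj_im]
      linarith
  obtain ⟨k, w, hw⟩ := exists_onb h hadd hsmul hconj hposh
  set w' : Fin k → V := fun a => θ • J (w a) with hw'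
  have hww : ∀ a c, P (w a) (w' c) = if a = c then 1 else 0 := by
    intro a c
    rw [← hw, hw', hh]
    simp only [map_smul, smul_eq_mul]
  have h1 : ∀ v, v = ∑ a, P v (w' a) • w a := by
    intro v
    conv_lhs => rw [← w.sum_repr v]
    refine Finset.sum_congr rfl (fun a _ => ?_)
    congr 1
    conv_rhs => rw [← w.sum_repr v]
    rw [map_sum, LinearMap.sum_apply, Finset.sum_eq_single a]
    · rw [LinearMap.map_smul₂, hww, if_pos rfl, smul_eq_mul, mul_one]
    · intro c _ hc
      rw [LinearMap.map_smul₂, hww, if_neg hc, smul_zero]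
    · intro h; exact absurd (Finset.mem_univ a) h
  have h2 : ∀ v, v = ∑ i, P v (b' i) • b i := by
    intro v
    have hv : v ∈ Submodule.span ℂ (Set.range b) := by rw [hb]; exact Submodule.mem_top
    obtain ⟨c, hc⟩ := (Submodule.mem_span_range_iff_exists_fun ℂ).1 hv
    conv_lhs => rw [← hc]
    refine Finset.sum_congr rfl (fun i _ => ?_)
    congr 1
    rw [← hc, map_sum, LinearMap.sum_apply, Finset.sum_eq_single i]
    · rw [LinearMap.map_smul₂, hPa, hbb, if_pos rfl, smul_eq_mul, mul_one]
    · intro j _ hj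
      rw [LinearMap.map_smul₂, hPa, hbb, if_neg hj, smul_zero]
    · intro h; exact absurd (Finset.mem_univ i) h
  have h3 : ∀ v, v = ∑ a, P (w a) v • w' a := by
    intro v
    by_contra hne
    obtain ⟨y, hy⟩ := hJbij.2 (v - ∑ a, P (w a) v • w' a)
    have hy0 : y ≠ 0 := by
      rintro rfl
      rw [hJ0] at hy
      exact hne (sub_eq_zero.1 hy.symm)
    have hz : ∀ c, P (w c) (J y) = 0 := by
      intro c
      rw [hy, map_sub, map_sum, Finset.sum_eq_single c]
      · rw [map_smul, hww, if_pos rfl, smul_eq_mul, mul_one, sub_self]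
      · intro a _ ha
        rw [map_smul, hww, if_neg (Ne.symm ha), smul_zero]
      · intro h; exact absurd (Finset.mem_univ c) h
    have hz2 : P y (J y) = 0 := by
      conv_lhs => rw [← w.sum_repr y]
      rw [map_sum, LinearMap.sum_apply]
      refine Finset.sum_eq_zero (fun a _ => ?_)
      rw [w.sum_repr y, LinearMap.map_smul₂, hz, smul_zero]
    obtain ⟨r, hr, hr2⟩ := hposh y hy0
    have : h y y = 0 := by simp only [hh, hz2, mul_zero]
    rw [this] at hr2
    have : r = 0 := by exact_mod_cast hr2.symm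
    exact hr.ne' this
  have hcon := contraction P m k n b b' w w' h1 h2 h3 hww f
  refine ⟨∑ c : Fin n → Fin k, Complex.normSq (f (fun i => w (c i))), ?_, ?_⟩
  · obtain ⟨c, hc⟩ : ∃ c : Fin n → Fin k, f (fun i => w (c i)) ≠ 0 := by
      by_contra hno
      push Not at hno
      apply hf0
      refine Module.Basis.ext_multilinear (fun _ => w) (fun c => ?_)
      rw [hno c]; rfl
    refine Finset.sum_pos' (fun c _ => Complex.normSq_nonneg _) ⟨c, Finset.mem_univ c, ?_⟩
    exact Complex.normSq_pos.2 hc
  · rw [hcon, Complex.ofReal_sum, Finset.mul_sum]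
    refine Finset.sum_congr rfl (fun c _ => ?_)
    have h4 : f (fun i => w' (c i)) = θ ^ n * (starRingEnd ℂ) (f (fun i => w (c i))) := by
      have h5 := MultilinearMap.map_smul_univ f (fun _ : Fin n => θ) (fun i => J (w (c i)))
      rw [hf, Finset.prod_const, Finset.card_univ, Fintype.card_fin, smul_eq_mul] at h5
      exact h5
    rw [h4, mul_left_comm, Complex.mul_conj]

end Pool.Agent.K1H21.SD
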